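import Pool.Agent.TH968.UST.Main3
import Pool.Agent.TH830.J73
import Pool.Agent.TH830.J74
import Pool.Agent.TH365.J75
import Pool.Agent.TH365.J76
import Pool.Agent.TH365.J77

/-!
# The wired uniform spanning tree is a graph factor of iid on recurrent unimodular graphs

`MP_688e31_pr`, Q1.

Proof outline. Random sparse root sets and random thresholds for the (truncated) hitting
distributions of simple random walk give edge sets `A_1 ⊆ A_2 ⊆ ...` with finite components that
exhaust the graph, as a factor of iid; recurrence makes the hitting distributions of neighbours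
close. On every component of `A_{n+1}` the uniform spanning tree `T_{n+1}` is sampled from a
monotone coupling (stochastic domination of Feder and Mihail, Hall's theorem) given `T_n`, so that
the number of vertices at which the two differ is at most four times the number of endpoints of
the new edges. The mass transport principle and Borel-Cantelli give a limit, and the free and
wired limits agree on recurrent graphs.
-/

namespace Pool.Agent.Results.MP_688e31_pr.WustFactorIid

open MeasureTheory Filter Topology Pool.Agent.TH968.UST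
open scoped ENNReal unitInterval

theorem dom' {V : Type*} [DecidableEq V] (r r' : Setoid V) (hr : r' ≤ r)
    (E E' : Finset (Sym2 V)) (hE : E' ⊆ E)
    (g : Finset (Sym2 V) → ℝ) (hg : ∀ S T, S ⊆ T → g S ≤ g T) :
    (∑ T ∈ trees r E, g (T ∩ E')) * ((trees r' E').card : ℝ) ≤
      (∑ T ∈ trees r' E', g T) * ((trees r E).card : ℝ) :=
  Pool.Agent.TH830.J74.dom
    (fun r r' hr E E' hE e he => Pool.Agent.TH830.J73.RM r r' hr E E' hE e he)
    r r' hr E E' hE g hg

theorem exists_Kc : ∃ Kc, GoodKc Kc :=
  exists_goodKc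
    (fun E' E hE => Pool.Agent.TH365.J75.coupling (fun E E' hE g hg => dom' ⊥ ⊥ le_rfl E E' hE g hg)
      E' E hE)
    (fun E => Pool.Agent.TH830.J73.trees_nonempty ⊥ E)

theorem conv' {V : Type*} [DecidableEq V] (G : SimpleGraph V) (hc : G.Connected)
    (hf : ∀ v, (G.neighborSet v).Finite) (hr : Recurrent G) (F A : Finset (Sym2 V)) :
    ∃ L : ℝ,
      Tendsto (fun B : Finset V => ustProb (wired B) (touch G B) (F : Set (Sym2 V)) A) atTop
        (𝓝 L) ∧
      ∀ δ > 0, ∃ H₀ : Finset (Sym2 V), (H₀ : Set (Sym2 V)) ⊆ G.edgeSet ∧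
        ∀ H : Finset (Sym2 V), H₀ ⊆ H → (H : Set (Sym2 V)) ⊆ G.edgeSet →
          |ustProb ⊥ (H : Set (Sym2 V)) (F : Set (Sym2 V)) A - L| ≤ δ :=
  Pool.Agent.TH365.J77.conv
    (fun r E x y h φ hφ => Pool.Agent.TH830.J73.K1 r E x y h φ hφ)
    (fun r E x y h hr => Pool.Agent.TH830.J73.K2 r E x y h hr)
    (fun r E => Pool.Agent.TH830.J73.trees_nonempty r E)
    (fun r r' hr E E' hE g hg => dom' r r' hr E E' hE g hg)
    G hf (fun x y δ hδ => Pool.Agent.TH365.J76.cutoff G hc hf hr x y δ hδ) F A

/-- Let `(G, ρ)` be a unimodular random rooted graph on the countable vertex set `V`, almost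
surely connected, locally finite and recurrent. Then the wired uniform spanning tree of `G` is a
graph factor of iid: there is a measurable map `Φ` from labelled graphs to edge sets, equivariant
under all isomorphisms, such that for almost every realisation of `G` the law of `Φ (G, U)`, for
iid uniform `[0,1]` vertex labels `U`, is the wired uniform spanning forest of `G`. -/
theorem result {V : Type*} [Countable V] {Ω : Type*} [MeasurableSpace Ω] (P : Measure Ω)
    [IsProbabilityMeasure P] (G : Ω → SimpleGraph V) (hG : Measurable G) (ρ : Ω → V)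
    (hρ : ∀ v, MeasurableSet {ω | ρ ω = v})
    (hconn : ∀ᵐ ω ∂P, (G ω).Connected)
    (hlf : ∀ᵐ ω ∂P, ∀ v, ((G ω).neighborSet v).Finite)
    (hrec : ∀ᵐ ω ∂P, Recurrent (G ω))
    (huni : Unimodular P G ρ) :
    ∃ Φ : SimpleGraph V → (V → unitInterval) → Set (Sym2 V),
      Measurable (fun p : SimpleGraph V × (V → unitInterval) => Φ p.1 p.2) ∧
      (∀ (γ : Equiv.Perm V) (H : SimpleGraph V) (u : V → unitInterval),
        Φ (H.map γ) (u ∘ γ.symm) = Sym2.map γ '' Φ H u) ∧
      (∀ H u, Φ H u ⊆ H.edgeSet) ∧
      ∀ᵐ ω ∂P, IsWUSF (G ω)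
        ((Measure.infinitePi fun _ : V => (volume : Measure unitInterval)).map (Φ (G ω))) := by
  classical
  obtain ⟨Kc, good⟩ := exists_Kc
  have hGadj : ∀ a b, MeasurableSet {ω | (G ω).Adj a b} := fun a b =>
    measurableSet_setOfPred.2 (SimpleGraph.measurable_iff_adj.1 hG a b)
  -- parameters
  obtain ⟨q, hq⟩ : ∃ q : Prm, Infinite V → ∀ m,
      ∫⁻ ω, U (V × Knd) {X | starQ q m (G ω) X (ρ ω)} ∂P ≤ 2⁻¹ ^ m := by
    rcases finite_or_infinite V with hV | hV
    · exact ⟨⟨fun _ => 0, fun _ => 0, fun _ => 0⟩, fun h => absurd hV (not_finite_iff_infinite.2 h)⟩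
    · have hh : ∀ᵐ ω ∂P, ∀ o v, ⨆ n, hit (G ω) o n v = 1 := by
        filter_upwards [hconn, hlf, hrec] with ω h1 h2 h3 o v
        exact Pool.Agent.TH365.J76.iSup_hit (G ω) h1 h2 h3 o v
      have hm : ∀ᵐ ω ∂P, ∀ o v, Monotone fun n => hit (G ω) o n v := by
        filter_upwards [hlf] with ω h2 o v
        exact Pool.Agent.TH365.J76.hit_mono (G ω) h2 o v
      have h := fun m => exists_param P G hGadj ρ hρ hlf hh hm m (2⁻¹ ^ m)
        (ENNReal.pow_pos (by norm_num) m)
      choose ε N K _ h2 using h
      exact ⟨⟨ε, N, K⟩, fun _ m => (h2 m).le⟩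
  have hae := ae_props good P G hG ρ hρ huni hlf q hq
  obtain ⟨sp, hsp, hspl⟩ := exists_split Knd
  set Φ : SimpleGraph V → (V → I) → Set (Sym2 V) :=
    fun H u => Phi0 Kc q H (fun p : V × Knd => sp (u p.1) p.2) with hΦ
  have hΦm : ∀ e, MeasurableSet {p : SimpleGraph V × (V → I) | e ∈ Φ p.1 p.2} := by
    intro e
    have hmap : Measurable fun p : SimpleGraph V × (V → I) =>
        (p.1, fun r : V × Knd => sp (p.2 r.1) r.2) := by
      refine measurable_fst.prodMk (measurable_pi_lambda _ fun r => ?_)
      exact (measurable_pi_apply r.2).comp (hsp.comp ((measurable_pi_apply r.1).comp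
        measurable_snd))
    exact hmap (meas_Phi0 good q e)
  have hΦsec : ∀ H : SimpleGraph V, Measurable (Φ H) := by
    intro H
    rw [measurable_set_iff]
    intro e
    have : Measurable fun u : V → I => (H, u) := measurable_const.prodMk measurable_id
    exact measurableSet_setOfPred.1 (this (hΦm e))
  refine ⟨Φ, ?_, ?_, ?_, ?_⟩
  · rw [measurable_set_iff]
    intro e
    exact measurableSet_setOfPred.1 (hΦm e)
  · intro γ H u
    exact Phi0_map γ Kc q H (fun p : V × Knd => sp (u p.1) p.2)
  · intro H u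
    exact Phi0_sub Kc q H _
  · filter_upwards [hae, hconn, hlf, hrec] with ω h1 h2 h3 h4
    refine ⟨Measure.isProbabilityMeasure_map (hΦsec _).aemeasurable, fun F A => ?_⟩
    obtain ⟨L, hL1, hL2⟩ := conv' (G ω) h2 h3 h4 F A
    have hlaw := law_Phi0 good q (G ω) h3 h1 F A L hL2
    have hL0 : 0 ≤ L := ge_of_tendsto' hL1 fun B => ustProb_nonneg _ _ _ _
    have hcyl : MeasurableSet {T : Set (Sym2 V) | T ∩ F = (A : Set (Sym2 V))} := by
      refine meas_cyl (fun T : Set (Sym2 V) => T) (fun e => ?_) F A
      exact measurableSet_setOfPred.2 ((measurable_set_iff.1 measurable_id) e)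
    have hcyl2 : MeasurableSet {X : V × Knd → I |
        Phi0 Kc q (G ω) X ∩ F = (A : Set (Sym2 V))} :=
      meas_cyl _ (meas_Phi0_sec good q (G ω)) F A
    have hval : (Measure.infinitePi fun _ : V => (volume : Measure unitInterval)).map (Φ (G ω))
        {T | T ∩ F = A} = ENNReal.ofReal L := by
      rw [Measure.map_apply (hΦsec _) hcyl, ← hlaw, ← map_split sp hsp hspl,
        Measure.map_apply (by fun_prop) hcyl2]
      rfl
    rw [hval, ENNReal.toReal_ofReal hL0]
    exact hL1

end Pool.Agent.Results.MP_688e31_pr.WustFactorIid
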